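import Pool.Agent.T6.H96.CN.Core
import Pool.Agent.T6.H96.CN.Cong

set_option autoImplicit false

/-!
# Clusters of congruent numbers of all three classes `5, 6, 7` modulo `8` (helper96)

Let `b_1, ..., b_K ≤ X ^ a` be ANY odd numbers `≥ P X`, `P` depending on `K` only. There are many isolated clusters of `m`
primes `q` between `X / 2` and `2 X`, of bounded diameter, such that for ALL these primes `q`, ALL `i` and EACH of the three
classes `r ∈ {5, 6, 7}` modulo `8` a number `e d b_i q (d b_i - κ q) (d b_i + κ q)`, with `e ∈ {1, 2}`, `d ∈ {1, 3, 5, 7}`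
and `κ` bounded, is, up to a square factor, a squarefree congruent number of the class `r`, where `d b_i - κ q` and
`d b_i + κ q` are products of a bounded number of large primes.

`S² e d b q (d b - κ q) (d b + κ q)`, `κ = e S²`, is the area of the right triangle with the generators `d b` and `κ q`.
-/

namespace Pool.Agent.Results.MP_8efaaa_nt.ClustersOfCongruentNumbers

open Finset

/-- `x² + a y² = z²`, `x² - a y² = t²` is solvable in positive integers -/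
def Congruent (a : ℕ) : Prop :=
  ∃ x y z t : ℕ, 0 < x ∧ 0 < y ∧ 0 < z ∧ 0 < t ∧ x ^ 2 + a * y ^ 2 = z ^ 2 ∧ x ^ 2 = a * y ^ 2 + t ^ 2

/-- `v > 1` is a product of at most `T` primes, all of them larger than `y` -/
def AlmostPrime (T : ℕ) (y : ℝ) (v : ℕ) : Prop :=
  1 < v ∧ v.primeFactorsList.length ≤ T ∧ ∀ p : ℕ, p.Prime → p ∣ v → y < p

/-- For each class `r ∈ {5, 6, 7}` modulo `8` there are a divisor `κ` of `2 P`, `d ∈ {1, 3, 5, 7}` and `e` (`e = 2` if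
`r = 6`, otherwise `e = 1`) such that `d b - κ q` and `d b + κ q` are products of at most `T` primes `> y` and
`e d b q (d b - κ q) (d b + κ q)` is a square times a squarefree congruent number `f ≡ r` modulo `8`. -/
def Fruitful (P T : ℕ) (y : ℝ) (b q : ℕ) : Prop :=
  ∀ r : ℕ, (r = 5 ∨ r = 6 ∨ r = 7) → ∃ e d κ f s : ℕ, (r = 6 → e = 2) ∧ (r ≠ 6 → e = 1) ∧
    (d = 1 ∨ d = 3 ∨ d = 5 ∨ d = 7) ∧ 0 < κ ∧ κ ≤ P ∧ κ * q < d * b ∧
    AlmostPrime T y (d * b - κ * q) ∧ AlmostPrime T y (d * b + κ * q) ∧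
    e * d * b * q * ((d * b - κ * q) * (d * b + κ * q)) = f * s ^ 2 ∧ Squarefree f ∧ Congruent f ∧ f % 8 = r

/-- `p` starts a cluster: `p` is the first of at least `m` primes in `[p, p + C]`, there are no other primes at distance at
most `w` of `p`, and ALL primes `q` in `[p, p + C]` are fruitful for ALL the `b_i`. -/
def Cluster {K : ℕ} (b : Fin K → ℕ) (P C m T : ℕ) (y w : ℝ) (p : ℕ) : Prop :=
  p.Prime ∧ m ≤ ((Icc p (p + C)).filter Nat.Prime).card ∧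
    (∀ q : ℕ, q.Prime → |(q : ℝ) - p| ≤ w → p ≤ q ∧ q ≤ p + C) ∧
    ∀ q : ℕ, q.Prime → p ≤ q → q ≤ p + C → ∀ i, Fruitful P T y (b i) q

open Classical in
/-- the `p` in `(X / 2, 2 X]` which lie in a progression with `s` terms in `(X / 2, 2 X]`, of difference `≤ d`, whose terms
start clusters and have the colour of `p` -/
noncomputable def InProg {K : ℕ} (b : Fin K → ℕ) (P C m T : ℕ) (y w : ℝ) {r : ℕ} (χ : ℕ → Fin r) (s : ℕ) (d : ℝ)
    (X : ℕ) : Finset ℕ :=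
  (Ioc (X / 2) (2 * X)).filter (fun p => ∃ x h : ℕ, 1 ≤ h ∧ (h : ℝ) ≤ d ∧ (∃ j < s, p = x + j * h) ∧
    ∀ j < s, x + j * h ∈ Ioc (X / 2) (2 * X) ∧ Cluster b P C m T y w (x + j * h) ∧ χ (x + j * h) = χ p)

section

open Pool.Agent.X32.Uni Pool.Agent.T6.H96.CN

/-- the four odd factors -/
def dd (j : Fin 4) : ℕ := 2 * j + 1

theorem dd_cases (j : Fin 4) : dd j = 1 ∨ dd j = 3 ∨ dd j = 5 ∨ dd j = 7 := by
  revert j
  decide

theorem dd_odd (j : Fin 4) : Odd (dd j) := ⟨j, rfl⟩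

/-- the indices -/
abbrev idx (K : ℕ) : Fin K × (Fin 4 × Fin 2) ≃ Fin (K * 8) :=
  (Equiv.prodCongr (Equiv.refl (Fin K)) (finProdFinEquiv (m := 4) (n := 2))).trans finProdFinEquiv

/-- the centres -/
def cen {K : ℕ} (b : Fin K → ℕ) (l : Fin (K * 8)) : ℕ := dd ((idx K).symm l).2.1 * b ((idx K).symm l).1

/-- the factors `1`, `2` -/
def fac {K : ℕ} (l : Fin (K * 8)) : ℕ := ((idx K).symm l).2.2 + 1

theorem cen_idx {K : ℕ} (b : Fin K → ℕ) (i : Fin K) (j : Fin 4) (k : Fin 2) : cen b (idx K (i, j, k)) = dd j * b i := by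
  unfold cen
  rw [Equiv.symm_apply_apply]

theorem fac_idx {K : ℕ} (i : Fin K) (j : Fin 4) (k : Fin 2) : fac (idx K (i, j, k)) = k + 1 := by
  unfold fac
  rw [Equiv.symm_apply_apply]

theorem fac_cases {K : ℕ} (l : Fin (K * 8)) : fac l = 1 ∨ fac l = 2 := by
  have : ∀ k : Fin 2, (k : ℕ) + 1 = 1 ∨ (k : ℕ) + 1 = 2 := by decide
  exact this _

theorem almost_nat {T : ℕ} {y : ℝ} {v : ℕ} (h : Almost T y (v : ℤ)) : AlmostPrime T y v := by
  obtain ⟨h1, h2, h3⟩ := h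
  refine ⟨?_, ?_, fun p hp hd => h3 p hp (Int.natCast_dvd_natCast.2 hd)⟩
  · rw [Nat.abs_cast] at h1
    exact_mod_cast h1
  · rw [Int.natAbs_natCast] at h2
    exact h2

/-- the choice of the factor `d` -/
theorem choose_d {u r : ℕ} (hu : u % 2 = 1) (hr : r = 5 ∨ r = 6 ∨ r = 7) :
    ∃ (j : Fin 4) (k : Fin 2), ((k : ℕ) + 1) * (dd j * u) % 8 = r ∧ (r = 6 → (k : ℕ) + 1 = 2) ∧ (r ≠ 6 → (k : ℕ) + 1 = 1) := by
  have key : ∀ v : Fin 8, (v : ℕ) % 2 = 1 → ∀ r : Fin 8, ((r : ℕ) = 5 ∨ (r : ℕ) = 6 ∨ (r : ℕ) = 7) →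
      ∃ (j : Fin 4) (k : Fin 2), ((k : ℕ) + 1) * (dd j * v) % 8 = r ∧ ((r : ℕ) = 6 → (k : ℕ) + 1 = 2) ∧
        ((r : ℕ) ≠ 6 → (k : ℕ) + 1 = 1) := by
    decide
  obtain ⟨j, k, h1, h2, h3⟩ := key ⟨u % 8, Nat.mod_lt _ (by norm_num)⟩ (by simp only; omega) ⟨r, by omega⟩ (by simpa using hr)
  refine ⟨j, k, ?_, by simpa using h2, by simpa using h3⟩
  simp only at h1
  rw [← h1]
  rw [Nat.mul_mod, Nat.mul_mod (dd j) u, Nat.mul_mod ((k : ℕ) + 1) (dd j * (u % 8)), Nat.mul_mod (dd j) (u % 8), Nat.mod_mod]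

theorem fruitful {K' T : ℕ} {y : ℝ} {b q : ℕ} (hK' : 1 ≤ K') (hb : Odd b) (hq : q.Prime) (hq2 : 2 < q)
    (h : ∀ (j : Fin 4) (k : Fin 2), kap K' (dd j * b) ((k : ℕ) + 1) * q < dd j * b ∧
      AlmostPrime T y (dd j * b - kap K' (dd j * b) ((k : ℕ) + 1) * q) ∧
      AlmostPrime T y (dd j * b + kap K' (dd j * b) ((k : ℕ) + 1) * q)) :
    Fruitful (2 * prim K' ^ 2) T y b q := by
  intro r hr
  have hbq : (b * q) % 2 = 1 := by
    have h1 : q % 2 = 1 := by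
      rcases hq.eq_two_or_odd with h2 | h2
      · omega
      · exact h2
    have h2 : b % 2 = 1 := Nat.odd_iff.1 hb
    rw [Nat.mul_mod, h1, h2]
  obtain ⟨j, k, hjk, hk6, hk7⟩ := choose_d hbq hr
  obtain ⟨h1, h2, h3⟩ := h j k
  obtain ⟨e, he⟩ : ∃ e : ℕ, e = (k : ℕ) + 1 := ⟨_, rfl⟩
  obtain ⟨d, hd⟩ : ∃ d : ℕ, d = dd j := ⟨_, rfl⟩
  have he12 : e = 1 ∨ e = 2 := by
    have : ∀ k : Fin 2, (k : ℕ) + 1 = 1 ∨ (k : ℕ) + 1 = 2 := by decide
    rw [he]
    exact this k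
  rw [← he, ← hd] at h1 h2 h3 hjk
  rw [← he] at hk6 hk7
  obtain ⟨S, hS⟩ : ∃ S : ℕ, S = slope K' (d * b) := ⟨_, rfl⟩
  obtain ⟨κ, hκ⟩ : ∃ κ : ℕ, κ = kap K' (d * b) e := ⟨_, rfl⟩
  have hκS : κ = e * S ^ 2 := by rw [hκ, hS]; rfl
  have hκ0 : 0 < κ := by rw [hκ]; exact kap_pos he12
  have hκP : κ ≤ 2 * prim K' ^ 2 := by rw [hκ]; exact kap_le he12
  rw [← hκ] at h1 h2 h3
  have hdb : Odd (d * b) := by
    rw [hd]
    exact (dd_odd j).mul hb
  have hS2 : 2 ∣ S := by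
    rw [hS]
    exact slope_dvd Nat.prime_two (by omega) (fun h2 => (Nat.not_even_iff_odd.2 hdb) (even_iff_two_dvd.2 h2))
  have h4 : 4 ∣ κ * q := by
    obtain ⟨u, hu⟩ := hS2
    rw [hκS, hu]
    exact ⟨e * u ^ 2 * q, by ring⟩
  obtain ⟨N, hN⟩ : ∃ N : ℕ, N = e * d * b * q * ((d * b - κ * q) * (d * b + κ * q)) := ⟨_, rfl⟩
  have hS0 : 0 < S := by rw [hS]; exact slope_pos _ _
  have hd0 : 0 < d := by
    rcases dd_cases j with h5 | h5 | h5 | h5 <;> omega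
  have hb0 : 0 < b := hb.pos
  have he0 : 0 < e := by omega
  have hN0 : 0 < N := by
    rw [hN]
    have h6 : 0 < d * b - κ * q := by omega
    have h7 : 0 < q := hq.pos
    positivity
  have hcls : N % 8 = r := by
    rw [hN, class_mod h4 hdb h1, ← hjk]
    congr 1
    ring
  have hcong : Pool.Agent.T6.H96.CN.Congruent (N * S ^ 2) := by
    have h8 := congruent_area (m := d * b) (n := κ * q) (Nat.mul_pos hκ0 hq.pos) h1
    have h9 : d * b * (κ * q) * ((d * b - κ * q) * (d * b + κ * q)) = N * S ^ 2 := by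
      rw [hN]
      have h10 : d * b * (κ * q) = e * d * b * q * S ^ 2 := by rw [hκS]; ring
      rw [h10]
      ring
    rw [← h9]
    exact h8
  obtain ⟨f, s, hf1, hf2, hf3, hf4⟩ := exists_sf hN0 hS0 hcong (by rw [hcls]; exact hr)
  refine ⟨e, d, κ, f, s, hk6, hk7, ?_, hκ0, hκP, h1, h2, h3, ?_, hf2, hf3, by rw [hf4, hcls]⟩
  · rw [hd]
    exact dd_cases j
  · rw [← hN]
    exact hf1

open Classical in
/-- **Theorem.** Many isolated clusters of `m` primes `q` which are fruitful for ANY given odd numbers `b_1, ..., b_K`: for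
all these `q`, all `i` and each of the classes `5, 6, 7` modulo `8`, the number
`e d b_i q (d b_i - κ q) (d b_i + κ q)` is a square times a squarefree congruent number of the class. -/
theorem result (K m : ℕ) (hK : 1 ≤ K) : ∃ P C D t : ℕ, 1 ≤ t ∧ ∃ c : ℝ, 0 < c ∧ ∃ ε : ℝ, 0 < ε ∧
    ∀ a s r : ℕ, 1 ≤ s → ∃ d X₀ : ℕ, ∀ X : ℕ, X₀ ≤ X → ∀ b : Fin K → ℕ,
      (∀ i, Odd (b i) ∧ 4 * P * X ≤ b i ∧ b i ≤ X ^ a) → ∀ χ : ℕ → Fin r,
        c * X / Real.log X ^ D ≤ ((InProg b P C m ((a + 4) * t) ((X : ℝ) ^ (1 / (t : ℝ))) (ε * Real.log X) χ s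
          (Real.log X ^ d) X).card : ℝ) := by
  obtain ⟨C, D, t, ht, c, hc, ε, hε, H⟩ := core (K * 8) m (by omega)
  refine ⟨2 * prim (K * 8) ^ 2, C, D, t, ht, c, hc, ε, hε, fun a s r hs => ?_⟩
  obtain ⟨d, X₁, hX1, H⟩ := H (a + 1) s r hs
  refine ⟨d, X₁ + 8, fun X hX b hb χ => ?_⟩
  have hP := prim_pos (K * 8)
  obtain ⟨P, hPe⟩ : ∃ P : ℕ, P = prim (K * 8) ^ 2 := ⟨_, rfl⟩
  obtain ⟨S, hS1, hS2⟩ := H X (by omega) (cen b) fac fac_cases
    (fun l => (dd_odd _).mul (hb _).1) (fun l => by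
      have hdl := dd_cases ((idx K).symm l).2.1
      obtain ⟨h1, h2, h3⟩ := hb ((idx K).symm l).1
      unfold cen
      obtain ⟨u, hu⟩ : ∃ u, u = dd ((idx K).symm l).2.1 := ⟨_, rfl⟩
      obtain ⟨v, hv⟩ : ∃ v, v = b ((idx K).symm l).1 := ⟨_, rfl⟩
      rw [← hu] at hdl ⊢
      rw [← hv] at h1 h2 h3 ⊢
      rw [← hPe] at h2 ⊢
      constructor
      · have h4 : 8 * (P * X) ≤ v := by
          calc 8 * (P * X) = 4 * (2 * P) * X := by ring
            _ ≤ v := h2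
        have h5 : 7 * P * X = 7 * (P * X) := by ring
        rw [h5]
        rcases hdl with h6 | h6 | h6 | h6 <;> rw [h6] <;> omega
      · have h4 : u ≤ X := by
          rcases hdl with h6 | h6 | h6 | h6 <;> omega
        calc u * v ≤ X * X ^ a := Nat.mul_le_mul h4 h3
          _ = X ^ (a + 1) := by ring) χ
  refine hS1.trans ?_
  have hT : (a + 1 + 3) * t = (a + 4) * t := by ring
  rw [hT] at hS2
  have hcard : S.card ≤ (InProg b (2 * prim (K * 8) ^ 2) C m ((a + 4) * t) ((X : ℝ) ^ (1 / (t : ℝ))) (ε * Real.log X) χ s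
          (Real.log X ^ d) X).card := by
    apply card_le_card
    intro p hp
    obtain ⟨x, h, e1, e2, ⟨j0, hj0, hpj⟩, e4⟩ := hS2 p hp
    have hall : ∀ j < s, x + j * h ∈ Ioc (X / 2) (2 * X) ∧ Cluster b (2 * prim (K * 8) ^ 2) C m ((a + 4) * t)
        ((X : ℝ) ^ (1 / (t : ℝ))) (ε * Real.log X) (x + j * h) ∧ χ (x + j * h) = χ p := by
      intro j hj
      obtain ⟨e5, e6, e7, e8⟩ := e4 j hj
      refine ⟨mem_Ioc.2 ⟨e5, e6⟩, ?_, e8⟩
      obtain ⟨k1, k2, k3, k4⟩ := e7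
      refine ⟨k1, k2, k3, fun q hq hq1 hq2 i => ?_⟩
      refine fruitful (by omega) (hb i).1 hq (by omega) (fun j k => ?_)
      obtain ⟨g1, g2, g3⟩ := k4 q hq hq1 hq2 (idx K (i, j, k))
      rw [cen_idx, fac_idx] at g1 g2 g3
      exact ⟨g1, almost_nat g2, almost_nat g3⟩
    unfold InProg
    rw [mem_filter]
    refine ⟨?_, x, h, e1, e2, ⟨j0, hj0, hpj⟩, hall⟩
    rw [hpj]
    exact (hall j0 hj0).1
  exact_mod_cast hcard

end

end Pool.Agent.Results.MP_8efaaa_nt.ClustersOfCongruentNumbers
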