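import Pool.Agent.T6.H10.CT.I

/-!
# Pairs of squarefree congruent numbers with a prescribed difference and few prime factors

Let `δ` be a squarefree congruent number, `x² + δ y² = z²`, `x² - δ y² = t²` a solution with coprime
`x`, `y`, and let `g` be a squarefree number which is prime to `z t` and a square modulo `(2 x y)²`,
for instance `g = 1`. Let `h = δ g`. Then in each class `r` modulo `8` such that `4` divides neither
`r` nor `r + h` there are infinitely many `n`, and at least `c T ^ (1/4)` with `n ≤ T`, such that `n`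
and `n + h` are both squarefree congruent numbers, and at least `c T ^ (1/4) / (log T) ^ C` of them
are such that `n` and `n + h` have at most `R` prime factors. (The condition on `r` is necessary.) If
`h` is `0, 1, 2, 6` or `7` modulo `8`, then `r` can be chosen such that `n` and `n + h` are both in
the classes `5, 6, 7` modulo `8`. In particular each squarefree congruent number `b ≡ 1, 2, 6, 7`
modulo `8` is in infinitely many additive triples `a + b = c` with squarefree congruent numbers `a`,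
`c` in the classes `5, 6, 7` with a bounded number of prime factors.

Proof. `z⁴ - t⁴ = δ (2 x y)²`. For suitable `X` in a residue class the numbers
`n = g (g² X⁴ - z⁴) / (2 x y)²` and `n + h = g (g² X⁴ - t⁴) / (2 x y)²` are integers; they are
congruent numbers, as `A B (A² - B²)` is, up to a square, for `A = g X²` and `B = z²` or `B = t²`. The
local conditions can be satisfied modulo the small primes; for each prime `p` there are at most two
classes modulo `p²` in which `p²` divides `g X² ± c²`, and the solutions of `g X² ± c² = m p²` with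
large `p` are so few because for two of them, `(X, p)` and `(X', p')`, `(m p p')² - (g X X' ± c²)²` is
`± g c² (X' - X)²`. The fundamental lemma of the sieve gives the numbers with few prime factors.
-/

set_option autoImplicit false

namespace Pool.Agent.Results.MP_8efaaa_nt.PairsWithDifference

/-- `x² + a y² = z²`, `x² - a y² = t²` is solvable in positive integers -/
def Congruent (a : ℕ) : Prop :=
  ∃ x y z t : ℕ, 0 < x ∧ 0 < y ∧ 0 < z ∧ 0 < t ∧ x ^ 2 + a * y ^ 2 = z ^ 2 ∧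
    x ^ 2 = a * y ^ 2 + t ^ 2

/-- the numbers `n ≤ T` with `n ≡ r` modulo `8` such that `n` and `n + h` are squarefree congruent
numbers -/
def Pairs (h r T : ℕ) : Set ℕ :=
  {n | n ≤ T ∧ n % 8 = r % 8 ∧ Squarefree n ∧ Squarefree (n + h) ∧ Congruent n ∧ Congruent (n + h)}

/-- those among these `n` for which `n` and `n + h` have at most `R` prime factors -/
def AlmostPrimePairs (h r R T : ℕ) : Set ℕ :=
  {n | n ∈ Pairs h r T ∧ n.primeFactors.card ≤ R ∧ (n + h).primeFactors.card ≤ R}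

/-- for a positive constant `c`, there are at least `c T ^ (1/4)` elements of `Pairs h r T` for all
large `T`, and for some `R`, `C` and a positive constant `c` there are at least
`c T ^ (1/4) / (log T) ^ C` elements of `AlmostPrimePairs h r R T` for all large `T` -/
def ManyPairs (h r : ℕ) : Prop :=
  (∃ c : ℝ, 0 < c ∧ ∃ T₀ : ℕ, ∀ T : ℕ, T₀ ≤ T →
    c * (T : ℝ) ^ (1 / 4 : ℝ) ≤ ((Pairs h r T).ncard : ℝ)) ∧
  ∃ (R C : ℕ) (c : ℝ), 0 < c ∧ ∃ T₀ : ℕ, ∀ T : ℕ, T₀ ≤ T →
    c * (T : ℝ) ^ (1 / 4 : ℝ) / Real.log T ^ C ≤ ((AlmostPrimePairs h r R T).ncard : ℝ)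

theorem sq400 (m : ℕ) (hm : m < 10) : (∃ s : ℕ, s ^ 2 % 400 = 40 * m + 1) ∧
    ∃ s : ℕ, s ^ 2 % 400 = 40 * m + 9 := by
  interval_cases m
  · exact ⟨⟨1, by norm_num⟩, ⟨3, by norm_num⟩⟩
  · exact ⟨⟨21, by norm_num⟩, ⟨7, by norm_num⟩⟩
  · exact ⟨⟨9, by norm_num⟩, ⟨67, by norm_num⟩⟩
  · exact ⟨⟨11, by norm_num⟩, ⟨23, by norm_num⟩⟩
  · exact ⟨⟨31, by norm_num⟩, ⟨13, by norm_num⟩⟩
  · exact ⟨⟨51, by norm_num⟩, ⟨47, by norm_num⟩⟩
  · exact ⟨⟨71, by norm_num⟩, ⟨43, by norm_num⟩⟩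
  · exact ⟨⟨59, by norm_num⟩, ⟨17, by norm_num⟩⟩
  · exact ⟨⟨39, by norm_num⟩, ⟨27, by norm_num⟩⟩
  · exact ⟨⟨19, by norm_num⟩, ⟨63, by norm_num⟩⟩

/-- **Pairs of squarefree congruent numbers with a prescribed difference and few prime factors.** -/
theorem result :
    (∀ δ g x y z t : ℕ, Squarefree δ → Squarefree g → 0 < x → 0 < y → 0 < z → 0 < t →
      Nat.Coprime x y → x ^ 2 + δ * y ^ 2 = z ^ 2 → x ^ 2 = δ * y ^ 2 + t ^ 2 →
      Nat.Coprime g (z * t) → (∃ s : ℕ, g ≡ s ^ 2 [MOD (2 * x * y) ^ 2]) →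
      ∀ r : ℕ, ¬ 4 ∣ r → ¬ 4 ∣ r + δ * g → ManyPairs (δ * g) r) ∧
    (∀ δ : ℕ, Squarefree δ → Congruent δ → ∃ q : ℕ, 0 < q ∧ ∀ g : ℕ, Squarefree g →
      g ≡ 1 [MOD q] → ∀ r : ℕ, ¬ 4 ∣ r → ¬ 4 ∣ r + δ * g → ManyPairs (δ * g) r) ∧
    (∀ g : ℕ, Squarefree g → g % 40 = 1 ∨ g % 40 = 9 → ¬ 7 ∣ g → ManyPairs (6 * g) 7) := by
  have h1 : ∀ δ g x y z t : ℕ, Squarefree δ → Squarefree g → 0 < x → 0 < y → 0 < z → 0 < t →
      Nat.Coprime x y → x ^ 2 + δ * y ^ 2 = z ^ 2 → x ^ 2 = δ * y ^ 2 + t ^ 2 →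
      Nat.Coprime g (z * t) → (∃ s : ℕ, g ≡ s ^ 2 [MOD (2 * x * y) ^ 2]) →
      ∀ r : ℕ, ¬ 4 ∣ r → ¬ 4 ∣ r + δ * g → ManyPairs (δ * g) r := by
    intro δ g x y z t hδ hg hx hy _ ht hxy e1 e2 hgz hs r hr hr'
    exact ⟨Pool.Agent.T6.H10.CT.main hδ hg hx hy ht hxy e1 e2 hgz hs hr hr',
      Pool.Agent.T6.H10.CT.main' hδ hg hx hy ht hxy e1 e2 hgz hs hr hr'⟩
  refine ⟨h1, ?_, ?_⟩
  · intro δ hδ hc
    obtain ⟨x, y, z, t, hx, hy, hz, ht, hxy, e1, e2⟩ := Pool.Agent.T6.H10.CT.prim hc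
    refine ⟨(2 * x * y) ^ 2 * (z * t), by positivity, fun g hg hgq r hr hr' => ?_⟩
    refine h1 δ g x y z t hδ hg hx hy hz ht hxy e1 e2 ?_ ⟨1, ?_⟩ r hr hr'
    · have h2 : g ≡ 1 [MOD z * t] := hgq.of_mul_left _
      have h3 := h2.gcd_eq
      rw [Nat.gcd_one_left] at h3
      rw [Nat.Coprime]
      exact h3
    · simpa using hgq.of_mul_right (z * t)
  · intro g hg h40 h7
    have hs6 : Squarefree 6 := by
      rw [Nat.squarefree_iff_prime_squarefree]
      intro p hp h
      have h2 : p * p ≤ 6 := Nat.le_of_dvd (by norm_num) h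
      have h3 : p ≤ 2 := by nlinarith
      have h4 : p = 2 := le_antisymm h3 hp.two_le
      rw [h4] at h
      omega
    refine h1 6 g 5 2 7 1 hs6 hg (by norm_num) (by norm_num) (by norm_num) (by norm_num)
      (by norm_num) (by norm_num) (by norm_num) ?_ ?_ 7 (by norm_num) ?_
    · rw [mul_one]
      exact ((Nat.Prime.coprime_iff_not_dvd (by norm_num)).2 h7).symm
    · have h3 : ∃ s, s ^ 2 % 400 = g % 400 := by
        have h4 := sq400 (g % 400 / 40) (by omega)
        rcases h40 with h | h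
        · obtain ⟨s, hs⟩ := h4.1
          exact ⟨s, by rw [hs]; omega⟩
        · obtain ⟨s, hs⟩ := h4.2
          exact ⟨s, by rw [hs]; omega⟩
      obtain ⟨s, hs⟩ := h3
      refine ⟨s, ?_⟩
      show g % (2 * 5 * 2) ^ 2 = s ^ 2 % (2 * 5 * 2) ^ 2
      norm_num
      exact hs.symm
    · omega

end Pool.Agent.Results.MP_8efaaa_nt.PairsWithDifference
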