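import Pool.Agent.T6.H61.PT.B

/-!
# Prescribed patterns of squarefree congruent numbers, of any length

Let `C` be a finite set of odd positive integers and `g` a squarefree number prime to all of them.
For a positive proportion of all `X`, ALL the numbers `g³ X⁴ - g c⁴`, `c ∈ C`, are squarefree
congruent numbers in the class `- g` modulo `8` (so that `m = g³ X⁴` is the centre of the pattern
`{- g c⁴ : c ∈ C}`, with the differences `g (c⁴ - c'⁴)`), provided that for each odd prime `p` not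
dividing `g` some `X` satisfies `p² ∤ g² X⁴ - c⁴` for all `c ∈ C`, which is clearly necessary; for
instance if the prime factors of the elements of `C` are greater than `4 |C| + 1`. For
`g = 1, 2, 3` all the numbers are in the class `7, 6, 5` modulo `8`.

Proof. `g (g² X⁴ - c⁴)` is congruent, as `A B (A² - B²)` is for `A = g X²`, `B = c²`, up to a square.
The squarefree sieve for `g X² ± c²` is the one of helper10 (`PairsWithDifference`), with constants
adapted to `|C|` simultaneous conditions.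
-/

set_option autoImplicit false

namespace Pool.Agent.Results.MP_8efaaa_nt.PatternsOfAnyLength

/-- `x² + a y² = z²`, `x² - a y² = t²` is solvable in positive integers -/
def Congruent (a : ℕ) : Prop :=
  ∃ x y z t : ℕ, 0 < x ∧ 0 < y ∧ 0 < z ∧ 0 < t ∧ x ^ 2 + a * y ^ 2 = z ^ 2 ∧
    x ^ 2 = a * y ^ 2 + t ^ 2

/-- the numbers `X` for which all the numbers `g³ X⁴ - g c⁴`, `c ∈ C`, are squarefree congruent
numbers in the class `- g` modulo `8` -/
def Good (g : ℕ) (C : Finset ℕ) : Set ℕ :=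
  {X | ∀ c ∈ C, ∃ n : ℕ, n + g * c ^ 4 = g ^ 3 * X ^ 4 ∧ 8 ∣ n + g ∧ Squarefree n ∧ Congruent n}

/-- for a positive constant `κ`, there are at least `κ Y` such numbers up to `Y`, for all large
`Y` -/
def PositiveProportion (g : ℕ) (C : Finset ℕ) : Prop :=
  ∃ κ : ℝ, 0 < κ ∧ ∃ Y₀ : ℕ, ∀ Y : ℕ, Y₀ ≤ Y →
    κ * (Y : ℝ) ≤ ((Good g C ∩ Set.Iic Y).ncard : ℝ)

/-- **Prescribed patterns of squarefree congruent numbers, of any length.** -/
theorem result :
    (∀ (g : ℕ) (C : Finset ℕ), Squarefree g → (∀ c ∈ C, Odd c ∧ Nat.Coprime g c) →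
      (∀ p : ℕ, p.Prime → p ≠ 2 → ¬ p ∣ g → ∃ X : ℤ, ∀ c ∈ C,
        ¬ (p : ℤ) ^ 2 ∣ (g : ℤ) ^ 2 * X ^ 4 - (c : ℤ) ^ 4) → PositiveProportion g C) ∧
    (∀ (g : ℕ) (C : Finset ℕ), Squarefree g → (∀ c ∈ C, c ≠ 0 ∧ Nat.Coprime g c ∧
      ∀ p : ℕ, p.Prime → p ∣ c → 4 * C.card + 1 < p) → PositiveProportion g C) ∧
    (∀ C : Finset ℕ, (∀ c ∈ C, c ≠ 0 ∧ ∀ p : ℕ, p.Prime → p ∣ c → 4 * C.card + 1 < p) →
      ∀ r : ℕ, r = 5 ∨ r = 6 ∨ r = 7 → PositiveProportion (8 - r) C) := by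
  have h1 : ∀ (g : ℕ) (C : Finset ℕ), Squarefree g → (∀ c ∈ C, Odd c ∧ Nat.Coprime g c) →
      (∀ p : ℕ, p.Prime → p ≠ 2 → ¬ p ∣ g → ∃ X : ℤ, ∀ c ∈ C,
        ¬ (p : ℤ) ^ 2 ∣ (g : ℤ) ^ 2 * X ^ 4 - (c : ℤ) ^ 4) → PositiveProportion g C := by
    intro g C hg hC hloc
    obtain ⟨B, M₀, hB, hM⟩ := Pool.Agent.T6.H61.PT.main_C hg (fun c hc => (hC c hc).1)
      (fun c hc => (hC c hc).2) hloc
    exact Pool.Agent.T6.H61.PT.count_C hB hM
  have h2 : ∀ (g : ℕ) (C : Finset ℕ), Squarefree g → (∀ c ∈ C, c ≠ 0 ∧ Nat.Coprime g c ∧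
      ∀ p : ℕ, p.Prime → p ∣ c → 4 * C.card + 1 < p) → PositiveProportion g C := by
    intro g C hg hC
    refine h1 g C hg (fun c hc => ⟨?_, (hC c hc).2.1⟩)
      (Pool.Agent.T6.H61.PT.loc_large fun c hc => (hC c hc).2.2)
    by_contra hodd
    have h3 : 2 ∣ c := even_iff_two_dvd.1 (Nat.not_odd_iff_even.1 hodd)
    have h4 := (hC c hc).2.2 2 Nat.prime_two h3
    have h5 : 0 < C.card := Finset.card_pos.2 ⟨c, hc⟩
    omega
  refine ⟨h1, h2, ?_⟩
  intro C hC r hr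
  have hs : Squarefree (8 - r) := by
    rcases hr with rfl | rfl | rfl
    · exact Nat.prime_three.prime.squarefree
    · exact Nat.prime_two.prime.squarefree
    · exact squarefree_one
  refine h2 (8 - r) C hs fun c hc => ⟨(hC c hc).1, ?_, (hC c hc).2⟩
  have h5 : 0 < C.card := Finset.card_pos.2 ⟨c, hc⟩
  refine Nat.coprime_of_dvd fun p hp h3 h4 => ?_
  have h6 := (hC c hc).2 p hp h4
  have h7 := Nat.le_of_dvd (by omega) h3
  omega

end Pool.Agent.Results.MP_8efaaa_nt.PatternsOfAnyLength
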