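import Pool.Agent.T6.H35.CQ.Any

/-!
# Squarefree congruent numbers in residue classes and polynomials modulo one

`Hits T q a P c` is the set of the squarefree congruent numbers `n ≤ T`, `n ≡ a (mod 8 q)`, for
which the fractional part of `P (n)` is smaller than `c`.  `ManyHits T δ P` is the lower bound
`c (T / q ^ 7) ^ (1 / 3) / (400 gcd (a, 8 q))` for its cardinality, for all moduli `q ≤ T ^ δ`, all
classes `a` with squarefree `gcd (a, 8 q)` and all `T ^ (- δ) ≤ c ≤ 1`.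
-/

set_option autoImplicit false

namespace Pool.Agent.Results.MP_8efaaa_nt.PolynomialsModuloOne

open Polynomial
open Pool.Agent.T6.H35.CQ (Hits ManyHits)

theorem result :
    (∀ k : ℕ, 1 ≤ k → ∃ δ : ℝ, 0 < δ ∧ ∀ α : ℝ, Irrational α → ∀ B : ℕ, ∃ T : ℕ, B ≤ T ∧
      ∀ P : ℝ[X], P.natDegree = k → P.leadingCoeff = α → ManyHits T δ P) ∧
    (∀ k : ℕ, 1 ≤ k → ∀ τ : ℝ, 1 ≤ τ → ∃ δ : ℝ, 0 < δ ∧ ∀ c₀ : ℝ, 0 < c₀ → ∃ T₀ : ℕ, ∀ T : ℕ,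
      T₀ ≤ T → ∀ P : ℝ[X], P.natDegree = k →
      (∀ d : ℕ, 1 ≤ d → ∀ b : ℤ, c₀ / (d : ℝ) ^ τ ≤ |d * P.leadingCoeff - b|) → ManyHits T δ P) ∧
    (∀ P : ℝ[X], (∃ j : ℕ, 1 ≤ j ∧ Irrational (P.coeff j)) → ∃ δ : ℝ, 0 < δ ∧
      ∀ q a : ℕ, 1 ≤ q → Squarefree (Nat.gcd a (8 * q)) → ∀ B : ℕ, ∃ T : ℕ, B ≤ T ∧
      ∀ β c : ℝ, (T : ℝ) ^ (-δ) ≤ c → c ≤ 1 →
        c * (T : ℝ) ^ (1 / 4 : ℝ) ≤ ((Hits T q a (P - C β) c).ncard : ℝ)) :=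
  ⟨Pool.Agent.T6.H35.CQ.many_irr, Pool.Agent.T6.H35.CQ.many_type, Pool.Agent.T6.H35.CQ.any_irr⟩

end Pool.Agent.Results.MP_8efaaa_nt.PolynomialsModuloOne
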